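import Pool.Agent.Q64.FR.Asm
import Pool.Agent.Q64.FR.Fin
import Pool.Agent.Q64.FR.DER
import Pool.Agent.Q64.FR.BND
import Pool.Agent.Q64.FR.QUAD
import Pool.Agent.Q64.FR.POL
import Pool.Agent.Q64.FR.PV
import Pool.Agent.Q98.FR.MOB
import Pool.Agent.Q98.FR.BET
import Pool.Agent.Q98.FR.LL
import Pool.Agent.Q98.FR.TAY
import Pool.Agent.Q98.FR.FUB
import Pool.Agent.Q98.FR.ONE

/-!
# MP_49e099_an, Q1: disproof for every `N ≥ 2` and `s ∈ (1/2,1)`

`Ω` = unit ball. With `t = ‖x‖²`, `φ(x) = (1-t)_+^s (2s(s+1)/N + 1 - t)` satisfies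
`(-Δ)^s φ = κ (1-t)` in the ball for some `κ > 0`. So `φ` is an admissible test function, positive in the ball, with
`(-Δ)^s φ = c φ`, `c(x) = κ (1-t)^{1-s}/(2s(s+1)/N + 1 - t)`, a bounded continuous nonnegative function which is
positive in the ball. Testing the equation with `φ` gives `∫ (μ 𝔻_s²(u) + λ f) φ = 0`: for this `c` the problem has
no weak solution at all, for any `λ > 0`, any bounded `μ ≥ 0` and any integrable `f` with `∫ f φ > 0`
(in particular `f ≥ 0`, `f ≢ 0`).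

The fractional Laplacian of `φ` is computed on lines: the one dimensional integrals are reduced by a Möbius
substitution to a Beta integral, then one integrates over the sphere of directions, and the exponent `s` is
obtained from the exponent `s + 1` by differentiating in a parameter.
-/

set_option autoImplicit false

open MeasureTheory Set Filter Topology
open scoped Real ENNReal

namespace Pool.Agent.Results.MP_49e099_an.NoSolutionAtResonance

open Pool.Agent.Q64.FR

theorem result : ∀ (N : ℕ) (s : ℝ), 2 ≤ N → 1 / 2 < s → s < 1 →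
    (∃ κ : ℝ, 0 < κ ∧ Continuous (cRes N s κ) ∧ (∀ x, 0 ≤ cRes N s κ x) ∧
      (∀ x ∈ Metric.ball (0 : E N) 1, 0 < cRes N s κ x) ∧ (∃ C : ℝ, ∀ x, cRes N s κ x ≤ C) ∧
      IsTest s (Metric.ball (0 : E N) 1) (phi N s) (fun x => cRes N s κ x * phi N s x) ∧
      ∀ μ f : E N → ℝ, MemLp μ ∞ (volume.restrict (Metric.ball (0 : E N) 1)) →
        (∀ᵐ x ∂(volume.restrict (Metric.ball (0 : E N) 1)), 0 ≤ μ x) →
        IntegrableOn f (Metric.ball (0 : E N) 1) →
        0 < ∫ x in Metric.ball (0 : E N) 1, f x * phi N s x →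
        ∀ lam : ℝ, 0 < lam → ∀ u : E N → ℝ,
          ¬ IsWeakSol s (Metric.ball (0 : E N) 1) (cRes N s κ) μ f lam u) ∧
    ¬ Q1 N s := by
  have hI := sI Pool.Agent.Q98.FR.t_MOB Pool.Agent.Q98.FR.t_VAL
  have hB := Pool.Agent.Q98.FR.t_BET
  have hL := Pool.Agent.Q98.FR.t_LL hI
  have hP := Pool.Agent.Q98.FR.t_PP hB hL
  have hO := Pool.Agent.Q98.FR.t_ONE (sONE1 hI hB hL hP Pool.Agent.Q98.FR.t_TAY Pool.Agent.Q98.FR.t_FUB)
  have hQ := t_QUAD t_POL
  have hN := t_NDIM hO t_BND t_INT t_POL hQ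
  exact final hB hQ t_BND t_INT hN (t_DER t_BND t_INT hN) (t_PV t_INT)

end Pool.Agent.Results.MP_49e099_an.NoSolutionAtResonance
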